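import Pool.Agent.W483.FB.Stm
set_option autoImplicit false

/-!
# Project FB: products of two-point distributions
-/

open Finset

namespace Pool.Agent.W571.FB

open Pool.Agent.W483.FB

theorem sg_sq (b : Bool) : sg b * sg b = 1 := by
  cases b <;> simp [sg]

theorem sg_not (b : Bool) : sg (!b) = -sg b := by
  cases b <;> simp [sg]

theorem sum_prod {n : ℕ} (g : Fin n → Bool → ℝ) :
    ∑ s : Fin n → Bool, ∏ j, g j (s j) = ∏ j, (g j true + g j false) := by
  have h := Finset.prod_univ_sum (fun _ : Fin n => (Finset.univ : Finset Bool)) (fun j b => g j b)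
  rw [Fintype.piFinset_univ] at h
  rw [← h]
  refine Finset.prod_congr rfl (fun j _ => ?_)
  rw [Fintype.sum_bool]

theorem sum_cons {n : ℕ} (F : (Fin (n + 1) → Bool) → ℝ) :
    ∑ s, F s = (∑ t : Fin n → Bool, F (Fin.cons true t)) + ∑ t : Fin n → Bool, F (Fin.cons false t) := by
  have h := (Fin.consEquiv (fun _ : Fin (n + 1) => Bool)).sum_comp F
  rw [← h, Fintype.sum_prod_type, Fintype.sum_bool]
  rfl

theorem pw_cons {n : ℕ} (nu : Fin (n + 1) → ℝ) (b : Bool) (t : Fin n → Bool) :
    pw nu (Fin.cons b t) = (1 + nu 0 * sg b) / 2 * pw (fun j => nu j.succ) t := by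
  unfold pw
  rw [Fin.prod_univ_succ]
  simp only [Fin.cons_zero, Fin.cons_succ]

theorem pw_sum {n : ℕ} (nu : Fin n → ℝ) : ∑ s, pw nu s = 1 := by
  unfold pw
  rw [sum_prod (fun j b => (1 + nu j * sg b) / 2)]
  refine Finset.prod_eq_one (fun j _ => ?_)
  simp [sg]
  ring

theorem pw_ent {n : ℕ} : ∀ nu : Fin n → ℝ,
    ∑ s, Real.negMulLog (pw nu s) = ∑ j, Real.binEntropy ((1 + nu j) / 2) := by
  induction n with
  | zero =>
    intro nu
    simp [pw]
  | succ n ih =>
    intro nu
    rw [sum_cons, Fin.sum_univ_succ, ← ih (fun j => nu j.succ)]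
    have h1 : ∀ b : Bool, ∑ t : Fin n → Bool, Real.negMulLog (pw nu (Fin.cons b t))
        = Real.negMulLog ((1 + nu 0 * sg b) / 2)
          + (1 + nu 0 * sg b) / 2 * ∑ t, Real.negMulLog (pw (fun j => nu j.succ) t) := by
      intro b
      have h2 : ∀ t : Fin n → Bool, Real.negMulLog (pw nu (Fin.cons b t))
          = pw (fun j => nu j.succ) t * Real.negMulLog ((1 + nu 0 * sg b) / 2)
            + (1 + nu 0 * sg b) / 2 * Real.negMulLog (pw (fun j => nu j.succ) t) := by
        intro t
        rw [pw_cons, Real.negMulLog_mul]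
      simp_rw [h2]
      rw [Finset.sum_add_distrib, ← Finset.sum_mul, pw_sum, one_mul, ← Finset.mul_sum]
    rw [h1, h1, Real.binEntropy_eq_negMulLog_add_negMulLog_one_sub]
    have e1 : (1 + nu 0 * sg true) / 2 = 1 - (1 + nu 0) / 2 := by
      simp [sg]
      ring
    have e2 : (1 + nu 0 * sg false) / 2 = (1 + nu 0) / 2 := by
      simp [sg]
    rw [e1, e2]
    ring

theorem flp_zero {n : ℕ} (b : Bool) (t : Fin n → Bool) :
    flp (0 : Fin (n + 1)) (Fin.cons b t : Fin (n + 1) → Bool) = Fin.cons (!b) t := by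
  unfold flp
  rw [Fin.cons_zero, Fin.update_cons_zero]

theorem flp_succ {n : ℕ} (j : Fin n) (b : Bool) (t : Fin n → Bool) :
    flp j.succ (Fin.cons b t : Fin (n + 1) → Bool) = Fin.cons b (flp j t) := by
  unfold flp
  rw [Fin.cons_succ, Fin.cons_update]

theorem pw_char {n : ℕ} : ∀ (nu : Fin n → ℝ) (r : (Fin n → Bool) → ℝ),
    (∀ s j, (1 - nu j * sg (s j)) * r s = (1 + nu j * sg (s j)) * r (flp j s)) →
    ∀ s, r s = (∑ t, r t) * pw nu s := by
  induction n with
  | zero =>
    intro nu r _ s
    have h1 : ∑ t, r t = r s := by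
      rw [Fintype.sum_unique]
      congr 1
      exact Subsingleton.elim _ _
    rw [h1]
    simp [pw]
  | succ n ih =>
    intro nu r h s
    have h0 : ∀ (b : Bool) (t : Fin n → Bool), r (Fin.cons b t)
        = (1 + nu 0 * sg b) / 2 * (r (Fin.cons true t) + r (Fin.cons false t)) := by
      intro b t
      have h1 := h (Fin.cons b t) 0
      rw [flp_zero, Fin.cons_zero] at h1
      cases b
      · simp only [Bool.not_false] at h1
        linear_combination h1 / 2
      · simp only [Bool.not_true] at h1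
        linear_combination h1 / 2
    have h2 := ih (fun j => nu j.succ) (fun t => r (Fin.cons true t) + r (Fin.cons false t)) (by
      intro t j
      have h3 := h (Fin.cons true t) j.succ
      have h4 := h (Fin.cons false t) j.succ
      rw [flp_succ, Fin.cons_succ] at h3 h4
      linear_combination h3 + h4)
    have h5 : s = Fin.cons (s 0) (Fin.tail s) := (Fin.cons_self_tail s).symm
    rw [h5, h0, pw_cons]
    have h6 := h2 (Fin.tail s)
    rw [h6, sum_cons, Finset.sum_add_distrib]
    ring

theorem pw_nonneg {n : ℕ} (nu : Fin n → ℝ) (h : ∀ j, |nu j| ≤ 1) (s : Fin n → Bool) :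
    0 ≤ pw nu s := by
  refine Finset.prod_nonneg (fun j _ => ?_)
  have h1 := abs_le.1 (h j)
  cases s j <;> simp [sg] <;> linarith [h1.1, h1.2]

theorem pw_sqrt {n : ℕ} (nu : Fin n → ℝ) (h : ∀ j, |nu j| ≤ 1) (j : Fin n) :
    ∑ s, √(pw nu s * pw nu (flp j s)) = √(1 - nu j ^ 2) := by
  have hj : 0 ≤ 1 - nu j ^ 2 := by
    have h1 := (sq_le_one_iff_abs_le_one (nu j)).2 (h j)
    linarith
  have h1 : ∀ s : Fin n → Bool, √(pw nu s * pw nu (flp j s))
      = ∏ k, (if k = j then √(1 - nu j ^ 2) / 2 else (1 + nu k * sg (s k)) / 2) := by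
    intro s
    have h2 : pw nu s * pw nu (flp j s)
        = (∏ k, (if k = j then √(1 - nu j ^ 2) / 2 else (1 + nu k * sg (s k)) / 2)) ^ 2 := by
      unfold pw
      rw [← Finset.prod_mul_distrib, ← Finset.prod_pow]
      refine Finset.prod_congr rfl (fun k _ => ?_)
      by_cases hk : k = j
      · subst hk
        rw [if_pos rfl, div_pow, Real.sq_sqrt hj]
        have h3 : flp k s k = !(s k) := by
          unfold flp
          rw [Function.update_self]
        rw [h3, sg_not]
        have h4 := sg_sq (s k)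
        linear_combination (-(nu k ^ 2) / 4) * h4
      · rw [if_neg hk]
        have h3 : flp j s k = s k := by
          unfold flp
          rw [Function.update_of_ne hk]
        rw [h3]
        ring
    rw [h2, Real.sqrt_sq]
    refine Finset.prod_nonneg (fun k _ => ?_)
    split_ifs
    · positivity
    · have h1 := abs_le.1 (h k)
      cases s k <;> simp [sg] <;> linarith [h1.1, h1.2]
  simp_rw [h1]
  rw [sum_prod (fun k b => if k = j then √(1 - nu j ^ 2) / 2 else (1 + nu k * sg b) / 2)]
  have h2 : ∀ k : Fin n, ((if k = j then √(1 - nu j ^ 2) / 2 else (1 + nu k * sg true) / 2)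
      + (if k = j then √(1 - nu j ^ 2) / 2 else (1 + nu k * sg false) / 2))
      = if k = j then √(1 - nu j ^ 2) else 1 := by
    intro k
    split_ifs
    · ring
    · simp [sg]
      ring
  simp_rw [h2]
  rw [Finset.prod_ite_eq']
  simp

theorem t_pw : S_pw := fun n nu =>
  ⟨pw_sum nu, pw_ent nu, pw_char nu, fun h => ⟨pw_nonneg nu h, pw_sqrt nu h⟩⟩

end Pool.Agent.W571.FB
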