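import Pool.Agent.W483.FB.Stm
set_option autoImplicit false

/-!
# Project FB: assembly of the site
-/

open Finset Matrix

namespace Pool.Agent.W571.FB

open Pool.Agent.W483.FB Pool.Agent.H390R2.LP Pool.Agent.H235R2.QLP

theorem sg_sq' (b : Bool) : sg b * sg b = 1 := by
  cases b <;> simp [sg]

theorem sg_ne {b c : Bool} (h : b ≠ c) : sg b - sg c ≠ 0 := by
  cases b <;> cases c <;> first | (exact absurd rfl h) | (simp only [sg]; norm_num)

theorem pos_ne {n : ℕ} {ω c : Fin (n + 1) → Bool} (h : pos ω ≠ pos c) : ω 0 ≠ c 0 := by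
  intro h1
  apply h
  unfold pos
  rw [h1]

theorem pos_eq {n : ℕ} {ω c : Fin (n + 1) → Bool} (h : pos ω = pos c) : ω 0 = c 0 := by
  unfold pos at h
  cases h1 : ω 0 <;> cases h2 : c 0 <;> simp_all

theorem rho_dot {n : ℕ} (u : (Fin n → Bool) → (Fin n → Bool) → ℝ) (lam : (Fin n → Bool) → ℝ)
    (x y : (Fin n → Bool) → ℝ) :
    x ⬝ᵥ (rhoM u lam).mulVec y = ∑ s, lam s * (∑ ω, u s ω * x ω) * (∑ ω, u s ω * y ω) := by
  unfold rhoM
  rw [Matrix.sum_mulVec, dotProduct_sum]
  refine Finset.sum_congr rfl (fun s _ => ?_)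
  rw [Matrix.smul_mulVec, Matrix.vecMulVec_mulVec, dotProduct_smul]
  have h1 : x ⬝ᵥ (MulOpposite.op (u s ⬝ᵥ y) • u s) = (∑ ω, u s ω * x ω) * (∑ ω, u s ω * y ω) := by
    have h2 : (MulOpposite.op (u s ⬝ᵥ y) • u s) = (u s ⬝ᵥ y) • u s := by
      funext i
      simp [mul_comm]
    rw [h2, dotProduct_smul, smul_eq_mul, mul_comm]
    congr 1
    exact dotProduct_comm _ _
  rw [h1, smul_eq_mul, mul_assoc]

theorem rho_trace {n : ℕ} (u : (Fin n → Bool) → (Fin n → Bool) → ℝ) (lam : (Fin n → Bool) → ℝ)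
    (hu : Orth u) : (rhoM u lam).trace = ∑ s, lam s := by
  unfold rhoM
  rw [Matrix.trace_sum]
  refine Finset.sum_congr rfl (fun s _ => ?_)
  rw [Matrix.trace_smul, Matrix.trace_vecMulVec]
  have h1 : u s ⬝ᵥ u s = 1 := by
    have h2 := hu s s
    rw [if_pos rfl] at h2
    exact h2
  rw [h1, smul_eq_mul, mul_one]

theorem t_site (h1 : S_cliff) (h3 : S_pw) (h4 : S_alg) (h5 : S_basis1) (h6 : S_basis2)
    (h7 : S_rel) (h8 : S_energy) (h9 : S_deph) (h10 : S_diag) : S_site := by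
  intro n a nu nu' D ha hnu
  obtain ⟨c, hc⟩ := h1 n
  obtain ⟨u, hu, hue⟩ := h5 (n + 1) c a ha
  obtain ⟨w, hw, hw0, hwe⟩ := h6 n c D.a' D.b' D.b0 D.a'_orth D.a'_zero D.b'_orth D.b0_unit
    D.b0_orth
  obtain ⟨hp1, hp2, -, hp4⟩ := h3 (n + 1) nu
  obtain ⟨hp5, hp6⟩ := hp4 hnu
  obtain ⟨hq1, hq2, -, -⟩ := h3 (n + 1) (Fin.cons 0 nu')
  have hrel := h7 (n + 1) c a u nu ha hu hue
  set ρ : Mat (n + 1) := rhoM u (pw nu) with hρ
  obtain ⟨hd1, hd2, hd3, hd4⟩ := h9 n c a nu nu' D ρ (fun v => (hrel v).1) (fun v => (hrel v).2)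
  have hdiag := h10 n c D.a' D.b' D.b0 nu' w (ρ + c.e 0 * ρ * c.e 0) D.a'_orth D.a'_zero
    D.b'_orth D.b0_unit D.b0_orth hw hw0 hwe hd1 hd2 hd3 hd4
  have htr : (ρ + c.e 0 * ρ * c.e 0).trace = 2 := by
    rw [Matrix.trace_add, Matrix.trace_mul_comm, ← mul_assoc, c.e_sq, one_mul, hρ,
      rho_trace u _ hu, hp1]
    norm_num
  have hwd : ∀ s t : Fin (n + 1) → Bool, pos s = pos t →
      w s ⬝ᵥ ρ.mulVec (w t) = if s = t then pw (Fin.cons 0 nu') s else 0 := by
    intro s t hst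
    have e1 := hdiag s t
    rw [htr, Matrix.add_mulVec, dotProduct_add] at e1
    have e2 : w s ⬝ᵥ (c.e 0 * ρ * c.e 0).mulVec (w t) = w s ⬝ᵥ ρ.mulVec (w t) := by
      rw [← Matrix.mulVec_mulVec, ← Matrix.mulVec_mulVec, hw0 t, Matrix.dotProduct_mulVec,
        ← Matrix.mulVec_transpose, c.e_tr, hw0 s, Matrix.mulVec_smul, dotProduct_smul,
        smul_dotProduct, smul_smul, pos_eq hst, sg_sq', one_smul]
    rw [e2] at e1
    by_cases hs : s = t
    · rw [if_pos hs] at e1 ⊢
      linarith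
    · rw [if_neg hs] at e1 ⊢
      linarith
  let S : Site (Fin (n + 1) → Bool) (Fin 2) :=
    { pos := pos
      u := u
      w := w
      lam := pw nu
      g := pw (Fin.cons 0 nu')
      lab := pos
      u_orth := hu
      w_orth := hw
      lam_nonneg := hp5
      lam_sum := hp1
      w_supp := by
        intro s ω hs
        have e1 := congrFun (hw0 s) ω
        rw [hc, Matrix.mulVec_diagonal, Pi.smul_apply, smul_eq_mul] at e1
        have e2 : (sg (ω 0) - sg (s 0)) * w s ω = 0 := by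
          rw [sub_mul, e1, sub_self]
        exact (mul_eq_zero.1 e2).resolve_left (sg_ne (pos_ne hs))
      w_diag := by
        intro s t hst
        rw [← hwd s t hst, hρ, rho_dot] }
  refine ⟨S, ?_, ?_⟩
  · have e1 : S.h = ∑ s, Real.negMulLog (pw (Fin.cons 0 nu') s) := rfl
    have e2 : S.S = ∑ s, Real.negMulLog (pw nu s) := rfl
    unfold cc
    rw [e1, e2, hq2, hp2, Fin.sum_univ_succ]
    congr 1
    congr 1
    · rw [Fin.cons_zero, add_zero, one_div, Real.binEntropy_two_inv]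
  · have hG : ∑ x, G S x = (1 + ∑ j, a j 0 ^ 2 * √(1 - nu j ^ 2)) / 2 := by
      have e1 : ∀ x, G S x = ∑ s, ∑ t, √(pw nu s * pw nu t) *
          (∑ ω : Fin (n + 1) → Bool, if pos ω = x then u s ω * u t ω else 0) ^ 2 := fun x => rfl
      rw [Fin.sum_univ_two, e1, e1, ← Finset.sum_add_distrib]
      have e2 := h8 (n + 1) c a u nu ha hu hue hnu (Pi.single 0 1)
      have e3 : ∀ j, (∑ l, a j l * (Pi.single 0 1 : Fin (n + 1) → ℝ) l) = a j 0 := by
        intro j
        simp [Pi.single_apply]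
      have e4 : c.E (Pi.single 0 1) = c.e 0 := by
        unfold Cliff.E
        simp [Pi.single_apply, ite_smul]
      simp_rw [e3] at e2
      rw [← e2, e4]
      have e5 : ∑ s : Fin (n + 1) → Bool, ∑ t : Fin (n + 1) → Bool,
          √(pw nu s * pw nu t) * (if s = t then (1 : ℝ) else 0) = 1 := by
        refine Eq.trans ?_ hp1
        refine Finset.sum_congr rfl (fun s _ => ?_)
        simp only [mul_ite, mul_one, mul_zero, Finset.sum_ite_eq, Finset.mem_univ, if_true]
        exact Real.sqrt_mul_self (hp5 s)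
      rw [← e5, ← Finset.sum_add_distrib, Finset.sum_div]
      refine Finset.sum_congr rfl (fun s _ => ?_)
      rw [← Finset.sum_add_distrib, ← Finset.sum_add_distrib, Finset.sum_div]
      refine Finset.sum_congr rfl (fun t _ => ?_)
      set p0 : ℝ := ∑ ω : Fin (n + 1) → Bool, if pos ω = 0 then u s ω * u t ω else 0 with hp0
      set p1 : ℝ := ∑ ω : Fin (n + 1) → Bool, if pos ω = 1 then u s ω * u t ω else 0 with hp1'
      have e6 : p0 + p1 = if s = t then (1 : ℝ) else 0 := by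
        rw [← hu s t, hp0, hp1', ← Finset.sum_add_distrib]
        refine Finset.sum_congr rfl (fun ω _ => ?_)
        unfold pos
        cases ω 0 <;> simp
      have e7 : p0 - p1 = u s ⬝ᵥ (c.e 0).mulVec (u t) := by
        rw [hp0, hp1', ← Finset.sum_sub_distrib, hc]
        unfold dotProduct
        refine Finset.sum_congr rfl (fun ω _ => ?_)
        rw [Matrix.mulVec_diagonal]
        unfold pos
        cases ω 0 <;> simp [sg]
      have e8 : p0 ^ 2 + p1 ^ 2 = ((p0 + p1) ^ 2 + (p0 - p1) ^ 2) / 2 := by ring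
      have e9 : (p0 + p1) ^ 2 = if s = t then (1 : ℝ) else 0 := by
        rw [e6]
        split_ifs <;> norm_num
      rw [e9, e7] at e8
      linear_combination √(pw nu s * pw nu t) * e8
    unfold EH
    rw [hG]
    ring

end Pool.Agent.W571.FB
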